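import Pool.Agent.W670.TL.Defs

set_option autoImplicit false

namespace Pool.Agent.W673.TL

open Pool.Agent.W670.TL NumberField

theorem tors_congr (K M : Type) [Field K] [NumberField K] [Field M] [NumberField M]
    (e : K ≃+* M) (ℓ : ℕ) : tors M ℓ = tors K ℓ := by
  let g : ClassGroup (𝓞 K) ≃* ClassGroup (𝓞 M) :=
    ClassGroup.mulEquiv (NumberField.RingOfIntegers.mapRingEquiv e)
  unfold tors
  symm
  refine Nat.card_congr (g.toEquiv.subtypeEquiv ?_)
  intro x
  constructor
  · intro h
    change (g x) ^ ℓ = 1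
    rw [← map_pow, h, map_one]
  · intro h
    change (g x) ^ ℓ = 1 at h
    rw [← map_pow] at h
    exact (map_eq_one_iff g g.injective).1 h

theorem mod : S_MOD := by
  intro K _ _
  let σ : K →ₐ[ℚ] AlgebraicClosure ℚ := IsAlgClosed.lift
  let e : K ≃ₐ[ℚ] σ.fieldRange := AlgEquiv.ofInjectiveField σ
  haveI : FiniteDimensional ℚ σ.fieldRange := LinearEquiv.finiteDimensional e.toLinearEquiv
  haveI hN : NumberField σ.fieldRange := { to_charZero := inferInstance, to_finiteDimensional := this }
  refine ⟨σ.fieldRange, hN, e.toLinearEquiv.finrank_eq.symm, ?_, ?_⟩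
  · unfold D
    rw [NumberField.discr_eq_discr_of_algEquiv K e]
  · intro ℓ
    exact tors_congr K σ.fieldRange e.toRingEquiv ℓ

end Pool.Agent.W673.TL
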